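import Pool.Agent.helper85.PG.Spec2
import Pool.Agent.helper85.PG.Basic

/-!
Case a of Theorem B for systems (paper: `/team-store/PG_paper_helper85.md`)
-/

set_option autoImplicit false

namespace Pool.Agent.helper85.PG

open Module Pointwise

theorem CA_large (A a : ℝ) (ha : 0 < a) : ∃ n₀ : ℕ, ∀ n : ℕ, n₀ ≤ n → A ≤ (n : ℝ) ^ a := by
  have h := (tendsto_rpow_atTop ha).comp tendsto_natCast_atTop_atTop
  exact Filter.eventually_atTop.1 (h.eventually_ge_atTop A)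

/-- the moment bound -/
theorem CA_mom (q τ C T Ps : ℝ) (k : ℕ) (hq : 1 ≤ q) (hC : 1 ≤ C) (hT : 0 < T)
    (hT1 : T ≤ q ^ τ) (hT2 : q ^ τ ≤ 2 * T) (hk : 1 ≤ (k : ℝ) * τ)
    (hPs : Ps ≤ C * T ^ 2 * (T ^ k * q + T ^ (2 * k) * Real.sqrt q)) :
    Ps ≤ C * (2 ^ k + 1) * q ^ (2 * τ) * T ^ (2 * k) * Real.sqrt q := by
  have hq0 : 0 < q := lt_of_lt_of_le one_pos hq
  have hs : 1 ≤ Real.sqrt q := by
    rw [Real.one_le_sqrt]; exact hq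
  have h1 : q ≤ (2 * T) ^ k := by
    calc q = q ^ (1 : ℝ) := (Real.rpow_one q).symm
      _ ≤ q ^ ((k : ℝ) * τ) := Real.rpow_le_rpow_of_exponent_le hq hk
      _ = (q ^ τ) ^ k := by rw [mul_comm, Real.rpow_mul hq0.le, Real.rpow_natCast]
      _ ≤ (2 * T) ^ k := pow_le_pow_left₀ (Real.rpow_nonneg hq0.le _) hT2 k
  have h2 : T ^ k * q ≤ 2 ^ k * T ^ (2 * k) * Real.sqrt q := by
    calc T ^ k * q ≤ T ^ k * (2 * T) ^ k := by gcongr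
      _ = 2 ^ k * T ^ (2 * k) := by rw [mul_pow, two_mul, pow_add]; ring
      _ ≤ 2 ^ k * T ^ (2 * k) * Real.sqrt q := le_mul_of_one_le_right (by positivity) hs
  have h3 : T ^ 2 ≤ q ^ (2 * τ) := by
    calc T ^ 2 ≤ (q ^ τ) ^ 2 := pow_le_pow_left₀ hT.le hT1 2
      _ = q ^ (2 * τ) := by
        rw [mul_comm 2 τ, Real.rpow_mul hq0.le, Real.rpow_two]
  calc Ps ≤ C * T ^ 2 * (T ^ k * q + T ^ (2 * k) * Real.sqrt q) := hPs
    _ ≤ C * q ^ (2 * τ) * (2 ^ k * T ^ (2 * k) * Real.sqrt q + T ^ (2 * k) * Real.sqrt q) := by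
        gcongr
    _ = C * (2 ^ k + 1) * q ^ (2 * τ) * T ^ (2 * k) * Real.sqrt q := by ring

/-- the sum over the collisions -/
theorem CA_key (q σ e A W : ℝ) (hq : 1 ≤ q) (hW : 0 < W) (he2 : e ≤ 1 / 2) (hσ : 0 ≤ σ)
    (hWb : q ^ (1 / 2 + e - σ) ≤ A * W) :
    Real.sqrt q * (W + W ^ 2 / q) ≤ W ^ 2 * (A + 1) * q ^ (σ - e) := by
  have hq0 : 0 < q := lt_of_lt_of_le one_pos hq
  have h1 : Real.sqrt q * W ≤ W ^ 2 * A * q ^ (σ - e) := by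
    calc Real.sqrt q * W = q ^ (1 / 2 + e - σ) * q ^ (σ - e) * W := by
          rw [Real.sqrt_eq_rpow, ← Real.rpow_add hq0]
          ring_nf
      _ ≤ (A * W) * q ^ (σ - e) * W := by gcongr
      _ = W ^ 2 * A * q ^ (σ - e) := by ring
  have h2 : Real.sqrt q * (W ^ 2 / q) ≤ W ^ 2 * q ^ (σ - e) := by
    have h3 : Real.sqrt q / q ≤ q ^ (σ - e) := by
      rw [Real.sqrt_eq_rpow]
      calc q ^ ((1 : ℝ) / 2) / q = q ^ ((1 : ℝ) / 2) / q ^ (1 : ℝ) := by rw [Real.rpow_one]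
        _ = q ^ ((1 : ℝ) / 2 - 1) := by rw [← Real.rpow_sub hq0]
        _ ≤ q ^ (σ - e) := Real.rpow_le_rpow_of_exponent_le hq (by linarith)
    calc Real.sqrt q * (W ^ 2 / q) = W ^ 2 * (Real.sqrt q / q) := by ring
      _ ≤ W ^ 2 * q ^ (σ - e) := by gcongr
  calc Real.sqrt q * (W + W ^ 2 / q) = Real.sqrt q * W + Real.sqrt q * (W ^ 2 / q) := by ring
    _ ≤ W ^ 2 * A * q ^ (σ - e) + W ^ 2 * q ^ (σ - e) := add_le_add h1 h2
    _ = W ^ 2 * (A + 1) * q ^ (σ - e) := by ring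

theorem CA_holder (q τ κ σ e A C T W S Ps : ℝ) (k : ℕ) (hq : 1 ≤ q) (hk0 : 0 < k) (hC : 1 ≤ C)
    (hA : 0 ≤ A) (hT : 0 < T) (hW : 0 < W) (hS : 0 ≤ S) (he2 : e ≤ 1 / 2) (hσ : 0 ≤ σ)
    (hexp : κ + 2 * τ + σ ≤ e / 4) (hWb : q ^ (1 / 2 + e - σ) ≤ A * W)
    (hbig : C * (A + 1) ≤ q ^ (e / 4))
    (hPs : Ps ≤ C * q ^ (2 * τ) * T ^ (2 * k) * Real.sqrt q)
    (hH : S ^ (2 * k) ≤ W ^ (2 * k - 2) * (q ^ κ * (W + W ^ 2 / q)) * Ps) :
    S ≤ W * T * q ^ (-(e / (4 * k))) := by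
  have hq0 : 0 < q := lt_of_lt_of_le one_pos hq
  have hk : (0 : ℝ) < k := by exact_mod_cast hk0
  have hkey := CA_key q σ e A W hq hW he2 hσ hWb
  have hW2 : W ^ (2 * k) = W ^ (2 * k - 2) * W ^ 2 := by
    rw [← pow_add]
    congr 1
    omega
  have hmain : S ^ (2 * k) ≤ (W * T * q ^ (-(e / (4 * k)))) ^ (2 * k) := by
    calc S ^ (2 * k) ≤ W ^ (2 * k - 2) * (q ^ κ * (W + W ^ 2 / q)) * Ps := hH
      _ ≤ W ^ (2 * k - 2) * (q ^ κ * (W + W ^ 2 / q)) *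
          (C * q ^ (2 * τ) * T ^ (2 * k) * Real.sqrt q) := by gcongr
      _ = W ^ (2 * k - 2) * q ^ κ * C * q ^ (2 * τ) * T ^ (2 * k) *
          (Real.sqrt q * (W + W ^ 2 / q)) := by ring
      _ ≤ W ^ (2 * k - 2) * q ^ κ * C * q ^ (2 * τ) * T ^ (2 * k) *
          (W ^ 2 * (A + 1) * q ^ (σ - e)) := by gcongr
      _ = (W ^ (2 * k - 2) * W ^ 2) * T ^ (2 * k) * (C * (A + 1)) *
          (q ^ κ * q ^ (2 * τ) * q ^ (σ - e)) := by ring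
      _ = (W * T) ^ (2 * k) * (C * (A + 1)) * q ^ (κ + 2 * τ + (σ - e)) := by
          rw [← hW2, mul_pow, Real.rpow_add hq0, Real.rpow_add hq0]
      _ ≤ (W * T) ^ (2 * k) * q ^ (e / 4) * q ^ (e / 4 - e) := by
          gcongr
          linarith
      _ = (W * T) ^ (2 * k) * q ^ (-(e / 2)) := by
          rw [mul_assoc, ← Real.rpow_add hq0]
          ring_nf
      _ = (W * T * q ^ (-(e / (4 * k)))) ^ (2 * k) := by
          rw [mul_pow (W * T), ← Real.rpow_natCast (q ^ (-(e / (4 * (k : ℝ))))) (2 * k),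
            ← Real.rpow_mul hq0.le]
          congr 2
          push_cast
          field_simp
          ring
  exact (pow_le_pow_iff_left₀ hS (by positivity) (by omega)).1 hmain

/-- the last step -/
theorem CA_final (q N D X T R M S CI CR a τ δ L : ℝ) (hq : 1 ≤ q) (hN : 0 ≤ N) (hD : 0 ≤ D)
    (hX : 0 < X) (hT : 0 < T) (hM : M ≤ 2 * X) (hR : 0 ≤ R) (hCI : 1 ≤ CI) 
    (hRD : R * D ≤ CR * N) (hS : S ≤ M * R * T * q ^ (-a)) (h1 : 2 * δ ≤ a) (h2 : 2 * δ ≤ τ)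
    (hbig : CI * (2 * CR + 1) ≤ q ^ δ)
    (hL : L ≤ CI * (D / (X * T) * S + q ^ (-τ) * N)) : L ≤ q ^ (-δ) * N := by
  have hq0 : 0 < q := lt_of_lt_of_le one_pos hq
  have ha : q ^ (-a) ≤ q ^ (-(2 * δ)) := Real.rpow_le_rpow_of_exponent_le hq (by linarith)
  have hτ : q ^ (-τ) ≤ q ^ (-(2 * δ)) := Real.rpow_le_rpow_of_exponent_le hq (by linarith)
  have hS2 : D / (X * T) * S ≤ 2 * CR * N * q ^ (-(2 * δ)) := by
    calc D / (X * T) * S ≤ D / (X * T) * (M * R * T * q ^ (-a)) := by gcongr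
      _ ≤ D / (X * T) * ((2 * X) * R * T * q ^ (-(2 * δ))) := by gcongr
      _ = 2 * (R * D) * q ^ (-(2 * δ)) := by field_simp
      _ ≤ 2 * (CR * N) * q ^ (-(2 * δ)) := by gcongr
      _ = 2 * CR * N * q ^ (-(2 * δ)) := by ring
  calc L ≤ CI * (D / (X * T) * S + q ^ (-τ) * N) := hL
    _ ≤ CI * (2 * CR * N * q ^ (-(2 * δ)) + q ^ (-(2 * δ)) * N) := by gcongr
    _ = (CI * (2 * CR + 1)) * (q ^ (-(2 * δ)) * N) := by ring
    _ ≤ q ^ δ * (q ^ (-(2 * δ)) * N) := by gcongr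
    _ = q ^ (-δ) * N := by
        rw [← mul_assoc, ← Real.rpow_add hq0]
        ring_nf

theorem CA (hPKC : PKC_stmt) (hINT : INT_stmt) (hSUP : SUP_stmt) (hCAI : CAI_stmt)
    (hRSZ : RSZ_stmt) (hCAH : CAH_stmt) : CA_stmt := by
  intro d ε ε₁ hε hε₁
  -- parameters
  obtain ⟨e, he⟩ : ∃ e : ℝ, e = min ε (1 / 2) := ⟨_, rfl⟩
  have he0 : 0 < e := by rw [he]; exact lt_min hε (by norm_num)
  have he1 : e ≤ ε := by rw [he]; exact min_le_left _ _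
  have he2 : e ≤ 1 / 2 := by rw [he]; exact min_le_right _ _
  obtain ⟨τ, hτ⟩ : ∃ τ : ℝ, τ = min e ε₁ / (8 * (2 + 4 * d)) := ⟨_, rfl⟩
  have hd0 : (0 : ℝ) ≤ d := Nat.cast_nonneg d
  have hden : (0 : ℝ) < 8 * (2 + 4 * d) := by positivity
  have hτ0 : 0 < τ := by rw [hτ]; exact div_pos (lt_min he0 hε₁) hden
  have hτm : 8 * (2 + 4 * d) * τ = min e ε₁ := by
    rw [hτ]; field_simp
  have hτe : 8 * (2 + 4 * d) * τ ≤ e := by rw [hτm]; exact min_le_left _ _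
  have hτε : 8 * (2 + 4 * d) * τ ≤ ε₁ := by rw [hτm]; exact min_le_right _ _
  have hdτ : 0 ≤ d * τ := by positivity
  have hτe' : 16 * τ + 32 * (d * τ) ≤ e := by linarith
  have hτε' : 16 * τ + 32 * (d * τ) ≤ ε₁ := by linarith
  have hτ1 : τ < 1 := by linarith
  obtain ⟨σ, hσ⟩ : ∃ σ : ℝ, σ = 4 * d * τ := ⟨_, rfl⟩
  have hσ0 : 0 ≤ σ := by rw [hσ]; positivity
  obtain ⟨k, hk⟩ := exists_nat_ge (1 / τ)
  have hkτ : 1 ≤ (k : ℝ) * τ := by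
    have := mul_le_mul_of_nonneg_right hk hτ0.le
    rwa [one_div, inv_mul_cancel₀ hτ0.ne'] at this
  have hk0 : 0 < k := by
    rcases Nat.eq_zero_or_pos k with h | h
    · rw [h, Nat.cast_zero, zero_mul] at hkτ
      exact absurd hkτ (by norm_num)
    · exact h
  have hk0' : (0 : ℝ) < k := by exact_mod_cast hk0
  obtain ⟨δ, hδ⟩ : ∃ δ : ℝ, δ = min (e / (4 * k)) τ / 2 := ⟨_, rfl⟩
  have hδ0 : 0 < δ := by
    rw [hδ]
    exact div_pos (lt_min (by positivity) hτ0) two_pos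
  have hδ1 : 2 * δ ≤ e / (4 * k) := by
    rw [hδ]
    linarith [min_le_left (e / (4 * (k : ℝ))) τ]
  have hδ2 : 2 * δ ≤ τ := by
    rw [hδ]
    linarith [min_le_right (e / (4 * (k : ℝ))) τ]
  -- constants
  obtain ⟨CS, hCS, hS⟩ := hSUP k hk0
  obtain ⟨CI, hCI, hI⟩ := hCAI d
  obtain ⟨CR, hCR, hR⟩ := hRSZ d
  obtain ⟨n₁, hH⟩ := hCAH d (e / 8) (by positivity)
  obtain ⟨n₂, hn₂⟩ := CA_large 8 τ hτ0
  obtain ⟨n₃, hn₃⟩ := CA_large (2 * 9 ^ d) (ε₁ / 2) (by positivity)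
  obtain ⟨n₄, hn₄⟩ := CA_large (CS * (2 ^ k + 1) * (CR * 9 ^ d + 1)) (e / 4) (by positivity)
  obtain ⟨n₅, hn₅⟩ := CA_large (CI * (2 * CR + 1)) δ hδ0
  refine ⟨δ, n₁ + n₂ + n₃ + n₄ + n₅, hδ0, ?_⟩
  intro p _ hp P Q hP hQ hN hD χ hχ s α β hα hβ
  have hprime : p.Prime := Fact.out
  obtain ⟨q, hqp⟩ : ∃ q : ℝ, q = (p : ℝ) := ⟨_, rfl⟩
  have hq1 : 1 < q := by rw [hqp]; exact_mod_cast hprime.one_lt
  have hq : 1 ≤ q := hq1.le
  have hq0 : 0 < q := lt_trans one_pos hq1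
  have g₂ := hn₂ p (by omega)
  have g₃ := hn₃ p (by omega)
  have g₄ := hn₄ p (by omega)
  have g₅ := hn₅ p (by omega)
  rw [← hqp] at g₂ g₃ g₄ g₅ hN hD ⊢
  -- the intersection
  have hZ := (hINT p d d P Q hP hQ).1
  obtain ⟨μ, hμ⟩ : ∃ μ : ℝ, μ = q ^ (-(2 * τ)) := ⟨_, rfl⟩
  have hμ0 : 0 < μ := by rw [hμ]; exact Real.rpow_pos_of_pos hq0 _
  have hμ1 : μ ≤ 1 := by rw [hμ]; exact Real.rpow_le_one_of_one_le_of_nonpos hq (by linarith)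
  obtain ⟨T, hTdef⟩ : ∃ T : ℕ, T = ⌊q ^ τ⌋₊ := ⟨_, rfl⟩
  have hqτ : 1 ≤ q ^ τ := Real.one_le_rpow hq hτ0.le
  have hT1 : (T : ℝ) ≤ q ^ τ := by rw [hTdef]; exact Nat.floor_le (by linarith)
  have hT0 : 0 < T := by rw [hTdef]; exact Nat.floor_pos.2 hqτ
  have hT0' : (1 : ℝ) ≤ T := by exact_mod_cast hT0
  have hT2 : q ^ τ ≤ 2 * T := by
    have := Nat.lt_floor_add_one (q ^ τ)
    rw [← hTdef] at this
    linarith
  have hTp : T < p := by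
    have h1 : (T : ℝ) < p := by
      rw [← hqp]
      calc (T : ℝ) ≤ q ^ τ := hT1
        _ < q ^ (1 : ℝ) := Real.rpow_lt_rpow_of_exponent_lt hq1 hτ1
        _ = q := Real.rpow_one q
    exact_mod_cast h1
  obtain ⟨η, hη⟩ : ∃ η : ℝ, η = q ^ (-τ) := ⟨_, rfl⟩
  have hη0 : 0 < η := by rw [hη]; exact Real.rpow_pos_of_pos hq0 _
  have hη1 : η ≤ 1 / 8 := by
    rw [hη, Real.rpow_neg hq0.le, ← one_div]
    exact one_div_le_one_div_of_le (by norm_num) g₂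
  have hTμ : ∀ y ∈ Finset.Icc 1 T, (y : ℝ) * μ ≤ η := by
    intro y hy
    have hy2 : (y : ℝ) ≤ T := by exact_mod_cast (Finset.mem_Icc.1 hy).2
    calc (y : ℝ) * μ ≤ q ^ τ * μ := by
          gcongr
          exact hy2.trans hT1
      _ = η := by
          rw [hμ, hη, ← Real.rpow_add hq0]
          ring_nf
  -- sizes
  obtain ⟨D, hDdef⟩ : ∃ D : ℝ, D = ((P 1 ∩ Q 1).card : ℝ) := ⟨_, rfl⟩
  obtain ⟨M, hMdef⟩ : ∃ M : ℝ, M = ((P μ ∩ Q μ).card : ℝ) := ⟨_, rfl⟩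
  obtain ⟨R, hRdef⟩ : ∃ R : ℝ, R = ((P 6 + Q 6).card : ℝ) := ⟨_, rfl⟩
  obtain ⟨N, hNdef⟩ : ∃ N : ℝ, N = ((P 1).card : ℝ) * ((Q 1).card : ℝ) := ⟨_, rfl⟩
  have hR0 : 0 ≤ R := by rw [hRdef]; exact Nat.cast_nonneg _
  have hD0 : 0 ≤ D := by rw [hDdef]; exact Nat.cast_nonneg _
  have hM0 : 0 ≤ M := by rw [hMdef]; exact Nat.cast_nonneg _
  have hN0 : 0 ≤ N := by rw [hNdef]; positivity
  have hDM : D ≤ 9 ^ d * q ^ σ * M := by
    have h1 := ((hPKC.2.2 p (d + d) (fun R => P R ∩ Q R) hZ 1 μ zero_le_one hμ0).1)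
    change ((P 1 ∩ Q 1).card : ℝ) ≤ (1 + 2 * 1 / μ) ^ (d + d) * ((P μ ∩ Q μ).card : ℝ) at h1
    rw [← hDdef, ← hMdef] at h1
    have h2 : 1 + 2 * 1 / μ ≤ 3 * q ^ (2 * τ) := by
      rw [hμ, Real.rpow_neg hq0.le]
      have h3 : 1 ≤ q ^ (2 * τ) := Real.one_le_rpow hq (by linarith)
      rw [div_inv_eq_mul]
      linarith
    have h3 : (3 * q ^ (2 * τ)) ^ (d + d) = 9 ^ d * q ^ σ := by
      rw [mul_pow, ← two_mul, pow_mul, ← Real.rpow_natCast (q ^ (2 * τ)), ← Real.rpow_mul hq0.le,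
        hσ]
      congr 1
      · norm_num
      · congr 1
        push_cast
        ring
    calc D ≤ (1 + 2 * 1 / μ) ^ (d + d) * M := h1
      _ ≤ (3 * q ^ (2 * τ)) ^ (d + d) * M := by gcongr
      _ = 9 ^ d * q ^ σ * M := by rw [h3]
  rw [← hDdef] at hD
  have hM2 : 2 ≤ M := by
    have h1 : q ^ σ * (2 * 9 ^ d) ≤ q ^ σ * (9 ^ d * M) := by
      calc q ^ σ * (2 * 9 ^ d) ≤ q ^ (ε₁ / 2) * q ^ (ε₁ / 2) := by
            gcongr
            rw [hσ]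
            linarith
        _ = q ^ ε₁ := by rw [← Real.rpow_add hq0]; ring_nf
        _ ≤ D := hD
        _ ≤ 9 ^ d * q ^ σ * M := hDM
        _ = q ^ σ * (9 ^ d * M) := by ring
    have h2 := le_of_mul_le_mul_left h1 (Real.rpow_pos_of_pos hq0 _)
    have h3 : (0 : ℝ) < 9 ^ d := by positivity
    rw [mul_comm 2] at h2
    exact le_of_mul_le_mul_left h2 h3
  have h0Z : (0 : ZMod p) ∈ P μ ∩ Q μ :=
    Finset.mem_inter.2 ⟨hP.zero_mem hμ0.le, hQ.zero_mem hμ0.le⟩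
  obtain ⟨X, hXdef⟩ : ∃ X : Finset (ZMod p), X = (P μ ∩ Q μ).erase 0 := ⟨_, rfl⟩
  have hXc : (X.card : ℝ) = M - 1 := by
    have h1 := Finset.card_erase_add_one h0Z
    rw [← hXdef] at h1
    rw [hMdef, ← h1]
    push_cast
    ring
  have hX0 : (0 : ℝ) < X.card := by rw [hXc]; linarith
  have hXne : X.Nonempty := Finset.card_pos.1 (by exact_mod_cast hX0)
  have hX0' : (0 : ZMod p) ∉ X := by rw [hXdef]; exact Finset.notMem_erase _ _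
  -- R
  obtain ⟨hR1, hR2⟩ := hR p P Q hP hQ
  rw [← hRdef, ← hDdef, ← hNdef] at hR1
  rw [← hDdef, ← hNdef] at hR2
  have hR3 : N ≤ CR * (R * D) := by
    have h1 : P 1 + Q 1 ⊆ P 6 + Q 6 :=
      Finset.add_subset_add (hP.mono (by norm_num)) (hQ.mono (by norm_num))
    have h2 : ((P 1 + Q 1).card : ℝ) ≤ R := by
      rw [hRdef]; exact_mod_cast Finset.card_le_card h1
    calc N ≤ CR * (((P 1 + Q 1).card : ℝ) * D) := hR2
      _ ≤ CR * (R * D) := by gcongr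
  rw [← hNdef] at hN ⊢
  have hN1 : q ^ (1 / 2 + e) ≤ N :=
    (Real.rpow_le_rpow_of_exponent_le hq (by linarith)).trans hN
  have hWb : q ^ (1 / 2 + e - σ) ≤ CR * 9 ^ d * (M * R) := by
    have h1 : q ^ σ * q ^ (1 / 2 + e - σ) ≤ q ^ σ * (CR * 9 ^ d * (M * R)) := by
      calc q ^ σ * q ^ (1 / 2 + e - σ) = q ^ (1 / 2 + e) := by
            rw [← Real.rpow_add hq0]; ring_nf
        _ ≤ N := hN1
        _ ≤ CR * (R * D) := hR3
        _ ≤ CR * (R * (9 ^ d * q ^ σ * M)) := by gcongr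
        _ = q ^ σ * (CR * 9 ^ d * (M * R)) := by ring
    exact le_of_mul_le_mul_left h1 (Real.rpow_pos_of_pos hq0 _)
  have hW0 : 0 < M * R := by
    have h1 : 0 < q ^ (1 / 2 + e - σ) := Real.rpow_pos_of_pos hq0 _
    have h2 : 0 < CR * 9 ^ d * (M * R) := lt_of_lt_of_le h1 hWb
    have h3 : 0 < CR * 9 ^ d := by positivity
    exact (mul_pos_iff_of_pos_left h3).1 h2
  -- the supremum
  obtain ⟨Ψ, hΨ0, hΨ1, hΨ2⟩ := hS p χ hχ T hT0 hTp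
  rw [← hqp] at hΨ2
  have hPs := CA_mom q τ CS T _ k hq hCS (by linarith) hT1 hT2 hkτ hΨ2
  -- the sum
  have hHol := hH p (by omega) P Q hP hQ μ hμ0 hμ1 Ψ hΨ0 s k hk0
  rw [← hXdef, ← hMdef, ← hRdef, ← hqp] at hHol
  obtain ⟨S, hSdef⟩ : ∃ S : ℝ, S = ∑ x ∈ X, ∑ v ∈ P 3 + Q 3, Ψ ((v + s) / x) := ⟨_, rfl⟩
  rw [← hSdef] at hHol
  have hS0 : 0 ≤ S := by
    rw [hSdef]
    exact Finset.sum_nonneg fun x _ => Finset.sum_nonneg fun v _ => hΨ0 _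
  have hC1 : 1 ≤ CS * (2 ^ k + 1) := by
    have h1 : (0 : ℝ) < 2 ^ k := by positivity
    exact one_le_mul_of_one_le_of_one_le hCS (by linarith)
  have hA1 : 0 ≤ CR * 9 ^ d := by positivity
  have hSb := CA_holder q τ (e / 8) σ e (CR * 9 ^ d) (CS * (2 ^ k + 1)) T (M * R) S _ k hq hk0
    hC1 hA1 (by linarith) hW0 hS0 he2 hσ0 (by rw [hσ]; linarith) hWb g₄ hPs (by
      refine hHol.trans (le_of_eq ?_)
      ring)
  -- the end
  have hI1 := hI p P Q hP hQ η hη0 hη1 X T hXne hX0' hT0 (by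
    intro x hx y hy
    rw [hXdef] at hx
    have h1 := Finset.mem_inter.1 (Finset.mem_of_mem_erase hx)
    exact Finset.mem_inter.2 ⟨hP.mono (hTμ y hy) (hP.nat_mul_mem h1.1 y),
      hQ.mono (hTμ y hy) (hQ.nat_mul_mem h1.2 y)⟩) χ Ψ hΨ0 hΨ1 s α β hα hβ
  rw [← hDdef, ← hSdef, hη, mul_assoc (q ^ (-τ)), ← hNdef] at hI1
  exact CA_final q N D X.card T R M S CI CR (e / (4 * k)) τ δ _ hq hN0 hD0 hX0 (by linarith)
    (by rw [hXc]; linarith) hR0 hCI hR1 hSb hδ1 hδ2 g₅ hI1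

end Pool.Agent.helper85.PG
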